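import Pool.Agent.WIR.StmtsC

/-!
# Squad WIR, row HFG: the good words
-/

set_option autoImplicit false

namespace Pool.Agent.WIR.H88

open scoped BigOperators

open Classical in
/-- grouping of the words by the value of `FO`. -/
theorem ft_fg (M L : ℕ) (S : Set ℕ) (N t : ℕ) (ξ : ZMod (3 ^ N)) :
    ft N (fg M L S N t) ξ =
      ∑ O ∈ (Finset.Icc 1 M).powerset.filter
        (fun O => O ∩ Finset.Icc 1 L ∈ gd N L t ∧ O.card ∈ S),
        ZMod.stdAddChar (-(ξ * FO N O)) := by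
  rw [← Finset.sum_fiberwise (g := fun O => FO N O), ft]
  refine Finset.sum_congr rfl fun x _ => ?_
  have h1 : ∀ O ∈ ((Finset.Icc 1 M).powerset.filter
      (fun O => O ∩ Finset.Icc 1 L ∈ gd N L t ∧ O.card ∈ S)).filter (fun O => FO N O = x),
      (ZMod.stdAddChar (-(ξ * FO N O)) : ℂ) = ZMod.stdAddChar (-(ξ * x)) := by
    intro O hO
    rw [(Finset.mem_filter.mp hO).2]
  rw [Finset.sum_congr rfl h1, Finset.sum_const, nsmul_eq_mul]
  congr 1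
  rw [fg]
  push_cast
  congr 2
  ext O
  simp only [Finset.mem_filter, and_assoc]

theorem hfg (h1 : FdcStmt) (h2 : ParStmt) (h3 : Gl2Stmt) (h4 : SplStmt) : HfgStmt := by
  classical
  intro A
  obtain ⟨C1, hC1, hF⟩ := h1 A
  have hC0 : 0 ≤ C1 := le_trans zero_le_one hC1
  refine ⟨C1 * 20 ^ A, ?_, ?_⟩
  · have : (1 : ℝ) ≤ 20 ^ A := one_le_pow₀ (by norm_num)
    nlinarith
  intro N L M t S hLM hS ht
  have hN1 : (0 : ℝ) < (N : ℝ) + 1 := by positivity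
  set a : ℝ := C1 * 20 ^ A / ((N : ℝ) + 1) ^ A with ha_def
  have ha : 0 ≤ a := by positivity
  have hAw : ∀ ξ : ZMod (3 ^ (N + 1)), IsUnit ξ → ‖Aw (N + 1) S ξ (M - L) t L‖ ≤ a := by
    intro ξ hξ
    have htN : t ≤ N + 1 := by omega
    refine le_trans (hF (N + 1) t S ξ (M - L) L hξ htN hS) ?_
    have h5 : ((N : ℝ) + 1) / 20 ≤ ((N + 1 - t : ℕ) : ℝ) + 1 := by
      have h6 : N + 1 ≤ 20 * (N + 1 - t) := by omega
      have h7 : ((N : ℝ) + 1) ≤ 20 * ((N + 1 - t : ℕ) : ℝ) := by exact_mod_cast h6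
      linarith
    have h8 : a = C1 / (((N : ℝ) + 1) / 20) ^ A := by
      rw [ha_def, div_pow]
      field_simp
    rw [h8]
    apply div_le_div_of_nonneg_left hC0 (by positivity)
    exact pow_le_pow_left₀ (by positivity) h5 A
  refine h2 N _ _ (by positivity) ?_
  intro T hT
  have hgd : ∀ O ∈ gd (N + 1) L t, O ⊆ Finset.Icc 1 L ∧ O.card = t ∧ nO L O < 3 ^ (N + 1) := by
    intro O hO
    simpa [gd, Finset.mem_filter, Finset.mem_powerset] using hO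
  have key : ∀ ξ ∈ T, ‖ft (N + 1) (fg M L S (N + 1) t) ξ‖ ^ 2 ≤
      ‖∑ O ∈ gd (N + 1) L t, ZMod.stdAddChar (-(ξ * FO (N + 1) O))‖ ^ 2 * (2 ^ (M - L) * a) ^ 2 := by
    intro ξ hξ
    rw [ft_fg, h4 (N + 1) L M t S ξ (gd (N + 1) L t) hLM (fun O hO => ⟨(hgd O hO).1, (hgd O hO).2.1⟩),
      norm_mul, norm_mul, mul_pow]
    apply mul_le_mul_of_nonneg_left _ (by positivity)
    have h9 : ‖(2 : ℂ) ^ (M - L)‖ = 2 ^ (M - L) := by simp
    rw [h9]
    apply pow_le_pow_left₀ (by positivity)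
    exact mul_le_mul_of_nonneg_left (hAw ξ (hT ξ hξ)) (by positivity)
  calc ∑ ξ ∈ T, ‖ft (N + 1) (fg M L S (N + 1) t) ξ‖ ^ 2
      ≤ ∑ ξ ∈ T, ‖∑ O ∈ gd (N + 1) L t, ZMod.stdAddChar (-(ξ * FO (N + 1) O))‖ ^ 2
          * (2 ^ (M - L) * a) ^ 2 := Finset.sum_le_sum key
    _ ≤ ∑ ξ, ‖∑ O ∈ gd (N + 1) L t, ZMod.stdAddChar (-(ξ * FO (N + 1) O))‖ ^ 2
          * (2 ^ (M - L) * a) ^ 2 :=
        Finset.sum_le_sum_of_subset_of_nonneg (Finset.subset_univ _) (fun _ _ _ => by positivity)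
    _ = (∑ ξ, ‖∑ O ∈ gd (N + 1) L t, ZMod.stdAddChar (-(ξ * FO (N + 1) O))‖ ^ 2)
          * (2 ^ (M - L) * a) ^ 2 := by rw [Finset.sum_mul]
    _ ≤ (3 ^ (N + 1) * 2 ^ L) * (2 ^ (M - L) * a) ^ 2 :=
        mul_le_mul_of_nonneg_right (h3 (N + 1) L t _ hgd) (by positivity)
    _ = (a * (2 ^ M * Real.sqrt (3 ^ (N + 1) / 2 ^ L))) ^ 2 := by
        rw [mul_pow, mul_pow, mul_pow, Real.sq_sqrt (by positivity)]
        obtain ⟨d, rfl⟩ := Nat.exists_eq_add_of_le hLM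
        rw [Nat.add_sub_cancel_left]
        field_simp
        ring

end Pool.Agent.WIR.H88
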