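import Pool.Agent.WIR.StmtsE

/-!
# Squad WIR, row INT: the integral of `s_n`
-/

set_option autoImplicit false

namespace Pool.Agent.WIR.H88I

open scoped BigOperators ENNReal
open MeasureTheory Filter Topology

theorem sum_cnt (M l : ℕ) : ∑ y : ZMod (3 ^ l), cnt M {l} l y = M.choose l := by
  classical
  have h1 : ∀ y : ZMod (3 ^ l), cnt M {l} l y =
      (((Finset.Icc 1 M).powerset.filter (fun O => O.card = l)).filter
        (fun O => FO l O = y)).card := by
    intro y
    rw [cnt, Finset.filter_filter]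
    congr 1
    ext O
    simp only [Finset.mem_filter, Set.mem_singleton_iff]
  simp only [h1]
  rw [← Finset.card_eq_sum_card_fiberwise (fun _ _ => Finset.mem_univ _)]
  have h2 : (Finset.Icc 1 M).powerset.filter (fun O => O.card = l)
      = Finset.powersetCard l (Finset.Icc 1 M) := by
    ext O
    simp only [Finset.mem_filter, Finset.mem_powerset, Finset.mem_powersetCard]
  rw [h2, Finset.card_powersetCard, Nat.card_Icc, Nat.add_sub_cancel]

theorem int (hMEA : MeaStmt) (hAPR : AprStmt) (hFLO : FloStmt) (_hPRJ : PrjStmt) : IntStmt := by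
  intro n
  have h1 : ∀ x, sP n x = ∑' l : ℕ, (cnt (Mz n l) {l} l (PadicInt.toZModPow l x) : ℝ≥0∞) := by
    intro x
    rw [sP]
    refine tsum_congr fun l => ?_
    rw [hAPR, hFLO.1 n l]
  have h2 : ∀ l : ℕ, Measurable fun x : ℤ_[3] =>
      (cnt (Mz n l) {l} l (PadicInt.toZModPow l x) : ℝ≥0∞) := fun l =>
    (hMEA.2 l (fun y => (cnt (Mz n l) {l} l y : ℝ≥0∞))).1
  have h3 : sP n = fun x => ∑' l : ℕ, (cnt (Mz n l) {l} l (PadicInt.toZModPow l x) : ℝ≥0∞) :=
    funext h1
  refine ⟨?_, h1, ?_⟩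
  · rw [h3]
    exact Measurable.tsum h2
  · rw [h3, lintegral_tsum fun l => (h2 l).aemeasurable]
    refine tsum_congr fun l => ?_
    rw [(hMEA.2 l (fun y => (cnt (Mz n l) {l} l y : ℝ≥0∞))).2, ← Nat.cast_sum, sum_cnt, en]
    have h4 : (3 : ℝ≥0∞) ^ l = ENNReal.ofReal (3 ^ l) := by
      rw [ENNReal.ofReal_pow (by norm_num)]
      norm_num
    rw [h4, ENNReal.ofReal_div_of_pos (by positivity), ENNReal.ofReal_natCast]

end Pool.Agent.WIR.H88I
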