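import Pool.Agent.WIR.StmtsE

/-!
# Squad WIR, row SBR: the mean value
-/

set_option autoImplicit false

namespace Pool.Agent.WIR.H88S

open scoped BigOperators ENNReal
open MeasureTheory Filter Topology

theorem en_nonneg (n l : ℕ) : 0 ≤ en n l := by
  rw [en]; positivity

theorem growth : Tendsto (fun n : ℕ => (2 : ℝ) ^ n / (14 * ((n : ℝ) + 1))) atTop atTop := by
  have h1 : Tendsto (fun n : ℕ => (n : ℝ) ^ 1 / (2 : ℝ) ^ n) atTop (𝓝 0) :=
    tendsto_pow_const_div_const_pow_of_one_lt 1 (by norm_num)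
  have h2 : Tendsto (fun n : ℕ => (1 : ℝ) / (2 : ℝ) ^ n) atTop (𝓝 0) := by
    have := tendsto_pow_const_div_const_pow_of_one_lt (r := (2 : ℝ)) 0 (by norm_num)
    simpa using this
  have h3 : Tendsto (fun n : ℕ => (14 * ((n : ℝ) + 1)) / (2 : ℝ) ^ n) atTop (𝓝 0) := by
    have h4 := (h1.add h2).const_mul 14
    rw [add_zero, mul_zero] at h4
    refine h4.congr fun n => ?_
    rw [pow_one]
    ring
  have h5 : Tendsto (fun n : ℕ => ((14 * ((n : ℝ) + 1)) / (2 : ℝ) ^ n)⁻¹) atTop atTop := by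
    apply Tendsto.inv_tendsto_nhdsGT_zero
    rw [tendsto_nhdsWithin_iff]
    exact ⟨h3, Eventually.of_forall fun n => by
      change (0 : ℝ) < _
      positivity⟩
  refine h5.congr fun n => ?_
  rw [inv_div]

theorem sbr (hTYB : TybStmt) (hUTS : UtsStmt) (hINT : IntStmt) (hMEA : MeaStmt) : SbrStmt := by
  obtain ⟨C, hT⟩ := hTYB
  obtain ⟨hUm, hU, hU1, -⟩ := hUTS
  have hprob : IsProbabilityMeasure μ3 := hMEA.1
  set S : ℕ → ℝ := fun n => ∑' l, en n l with hS
  have hUc : μ3 U3ᶜ = 1 / 3 := by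
    rw [measure_compl hUm (measure_ne_top μ3 U3), measure_univ, hU]
    have h1 : (2 : ℝ≥0∞) / 3 = ENNReal.ofReal (2 / 3) := by
      rw [ENNReal.ofReal_div_of_pos (by norm_num)]; norm_num
    have h2 : (1 : ℝ≥0∞) / 3 = ENNReal.ofReal (1 / 3) := by
      rw [ENNReal.ofReal_div_of_pos (by norm_num)]; norm_num
    rw [h1, h2, ← ENNReal.ofReal_one, ← ENNReal.ofReal_sub _ (by norm_num)]
    norm_num
  have hS1 : ∀ n, 1 ≤ n → 1 ≤ S n := by
    intro n hn
    have h1 : en n 0 ≤ S n := (hT n hn).1.le_tsum 0 (fun l _ => en_nonneg n l)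
    have h2 : en n 0 = 1 := by simp [en]
    rw [h2] at h1
    exact h1
  have hsb : ∀ n, 1 ≤ n → sbar n = ENNReal.ofReal ((S n - 1 / 3) / (2 / 3)) := by
    intro n hn
    have h1 : ∫⁻ x in U3, sP n x ∂μ3 + ∫⁻ x in U3ᶜ, sP n x ∂μ3 = ENNReal.ofReal (S n) := by
      rw [lintegral_add_compl _ hUm, (hINT n).2.2,
        ← ENNReal.ofReal_tsum_of_nonneg (en_nonneg n) (hT n hn).1]
    have h2 : ∫⁻ x in U3ᶜ, sP n x ∂μ3 = 1 / 3 := by
      rw [setLIntegral_congr_fun (g := fun _ => 1) hUm.compl (fun x hx => hU1 x hx n),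
        setLIntegral_const, one_mul, hUc]
    have h3 : ∫⁻ x in U3, sP n x ∂μ3 = ENNReal.ofReal (S n - 1 / 3) := by
      rw [ENNReal.ofReal_sub _ (by norm_num), ← h1, h2]
      have h4 : ENNReal.ofReal (1 / 3) = 1 / 3 := by
        rw [ENNReal.ofReal_div_of_pos (by norm_num)]; norm_num
      rw [h4, ENNReal.add_sub_cancel_right (by norm_num)]
    have h5 : (2 : ℝ≥0∞) / 3 = ENNReal.ofReal (2 / 3) := by
      rw [ENNReal.ofReal_div_of_pos (by norm_num)]; norm_num
    rw [sbar, h3, hU, h5, ← ENNReal.ofReal_div_of_pos (by norm_num)]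
  constructor
  · intro n hn
    rw [hsb n hn]
    refine ⟨?_, ENNReal.ofReal_lt_top⟩
    rw [ENNReal.ofReal_pos]
    have := hS1 n hn
    apply div_pos _ (by norm_num)
    linarith
  · have hSinf : Tendsto S atTop atTop := by
      apply tendsto_atTop_mono' _ _ growth
      filter_upwards [eventually_ge_atTop 1] with n hn
      exact (hT n hn).2.1
    have h1 : Tendsto (fun n => 2 / 3 + (2 / 9) * (S n - 1 / 3)⁻¹) atTop (𝓝 (2 / 3)) := by
      have h2 : Tendsto (fun n => (S n - 1 / 3)⁻¹) atTop (𝓝 0) := by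
        apply Tendsto.inv_tendsto_atTop
        exact tendsto_atTop_add_const_right _ _ hSinf
      have h3 := (h2.const_mul (2 / 9)).const_add (2 / 3)
      simpa using h3
    have h4 := ENNReal.tendsto_ofReal h1
    have h5 : ENNReal.ofReal (2 / 3) = 2 / 3 := by
      rw [ENNReal.ofReal_div_of_pos (by norm_num)]; norm_num
    rw [h5] at h4
    refine h4.congr' ?_
    filter_upwards [eventually_ge_atTop 1] with n hn
    have h6 := hS1 n hn
    have h7 : 0 < S n - 1 / 3 := by linarith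
    rw [hsb n hn, ← ENNReal.ofReal_div_of_pos (by positivity)]
    congr 1
    change 2 / 3 + (2 / 9) * (S n - 1 / 3)⁻¹ = S n / ((S n - 1 / 3) / (2 / 3))
    generalize S n = s at h7 ⊢
    have h8 : s = (s - 1 / 3) + 1 / 3 := by ring
    generalize s - 1 / 3 = t at h7 h8 ⊢
    rw [h8]
    field_simp
    ring

end Pool.Agent.WIR.H88S
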