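import Pool.Agent.WIR.StmtsE

/-!
# Squad WIR, row TAL: the typical part, measure level
-/

set_option autoImplicit false

namespace Pool.Agent.WIR.H88

open scoped BigOperators ENNReal
open MeasureTheory Filter Topology

theorem mn_pow_le (n : ℕ) : mn n ^ 6 ≤ n := by
  have h := Nat.findGreatest_spec (P := fun m => m ^ 6 ≤ n) (m := 0) (n := n) (Nat.zero_le n)
    (by simp)
  exact h

theorem lt_mn_succ_pow (n : ℕ) : n < (mn n + 1) ^ 6 := by
  by_contra hcon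
  rw [not_lt] at hcon
  have h1 : mn n + 1 ≤ n := (Nat.le_self_pow (by norm_num) _).trans hcon
  have h2 : mn n < mn n + 1 := Nat.lt_succ_self _
  exact Nat.findGreatest_is_greatest (P := fun m => m ^ 6 ≤ n) h2 h1 hcon

theorem le_mn (n m : ℕ) (h : m ^ 6 ≤ n) : m ≤ mn n :=
  Nat.le_findGreatest ((Nat.le_self_pow (by norm_num) _).trans h) h

theorem pj_toZModPow (m l : ℕ) (h : m ≤ l) (x : ℤ_[3]) :
    pj m l (PadicInt.toZModPow l x) = PadicInt.toZModPow m x := by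
  rw [pj, ZMod.natCast_val, PadicInt.cast_toZModPow m l h x]

theorem ofReal_max0 (a : ℝ) : ENNReal.ofReal (max 0 a) = ENNReal.ofReal a := by
  rcases le_total 0 a with h | h
  · rw [max_eq_right h]
  · rw [max_eq_left h, ENNReal.ofReal_of_nonpos h, ENNReal.ofReal_zero]

theorem tal (hMEA : MeaStmt) (hULX : UlxStmt) (hTYB : TybStmt) (hFLO : FloStmt) : TalStmt := by
  obtain ⟨C1, hC1, hU⟩ := hULX 24
  obtain ⟨C2, hT⟩ := hTYB
  obtain ⟨-, hF1, hF2, -⟩ := hFLO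
  have hC0 : 0 ≤ C1 := le_trans zero_le_one hC1
  refine ⟨140 * C1, by positivity, ?_⟩
  intro ε hε
  obtain ⟨m0, hm0⟩ := hU ε hε
  refine ⟨(max m0 2) ^ 6, ?_⟩
  intro n hn
  have hmn : max m0 2 ≤ mn n := le_mn n _ hn
  have hmn0 : m0 ≤ mn n := (le_max_left _ _).trans hmn
  have hmn2 : 2 ≤ mn n := (le_max_right _ _).trans hmn
  have hn64 : 64 ≤ n := by
    have h1 : 2 ^ 6 ≤ mn n ^ 6 := Nat.pow_le_pow_left hmn2 6
    have h2 := mn_pow_le n
    omega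
  set m := mn n with hm
  have hnR : (0 : ℝ) < (n : ℝ) + 1 := by positivity
  set S : ℝ := ∑' l, en n l with hS
  have hSpos : (0 : ℝ) < 2 ^ n / (14 * ((n : ℝ) + 1)) := by positivity
  have hS2 : 2 ^ n / (14 * ((n : ℝ) + 1)) ≤ S := (hT n (by omega)).2.1
  -- the finite level functions
  let g : (l : ℕ) → ZMod (3 ^ l) → ℝ≥0∞ := fun l y => ENNReal.ofReal
    (|(cnt (Mz n l) {l} l y : ℝ) - en n l * W m (pj m l y)| - ε * (en n l * W m (pj m l y)))
  have hMzn : ∀ l, n ≤ Mz n l := fun l => Nat.le_add_right _ _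
  have hml : ∀ l ∈ Ty n, m ≤ l := by
    intro l hl
    have h1 := (Finset.mem_filter.mp hl).2
    have h2 := (abs_le.mp h1).1
    have h3 : (m : ℤ) ^ 6 ≤ Mz n l := by
      have h4 : m ^ 6 ≤ Mz n l := (mn_pow_le n).trans (hMzn l)
      exact_mod_cast h4
    have h5 : (2 : ℤ) * m ≤ (m : ℤ) ^ 6 - (m : ℤ) ^ 4 := by
      have h6 : (2 : ℤ) ≤ m := by exact_mod_cast hmn2
      have h7 : (m : ℤ) ^ 6 - (m : ℤ) ^ 4 = m * (m ^ 3 * (m ^ 2 - 1)) := by ring
      have h8 : (2 : ℤ) ≤ m ^ 3 * (m ^ 2 - 1) := by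
        have h9 : (8 : ℤ) ≤ m ^ 3 := by
          have := pow_le_pow_left₀ (by norm_num : (0 : ℤ) ≤ 2) h6 3
          linarith
        have h10 : (3 : ℤ) ≤ m ^ 2 - 1 := by nlinarith
        nlinarith
      rw [h7]
      nlinarith
    have : (2 : ℤ) * m ≤ 2 * l := by
      rw [← hm] at h2
      linarith
    omega
  have hint : ∀ l ∈ Ty n, ∫⁻ x, g l (PadicInt.toZModPow l x) ∂μ3
      ≤ ENNReal.ofReal (C1 * 2 ^ n / ((n : ℝ) + 1) ^ 4) := by
    intro l hl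
    have hl2 := Finset.mem_filter.mp hl
    have hl10 : l ≤ 10 * n := by
      have := Finset.mem_range.mp hl2.1
      omega
    rw [(hMEA.2 l (g l)).2]
    have h1 := hm0 m (Mz n l) l hmn0 ((mn_pow_le n).trans (hMzn l)) hl2.2
      (hF2 n l (by omega) hl10)
    have h2 : ∑ y, g l y = ENNReal.ofReal (∑ y : ZMod (3 ^ l), max 0
        (|(cnt (Mz n l) {l} l y : ℝ) - ((Mz n l).choose l : ℝ) / 3 ^ l * W m (pj m l y)|
        - ε * (((Mz n l).choose l : ℝ) / 3 ^ l * W m (pj m l y)))) := by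
      rw [ENNReal.ofReal_sum_of_nonneg (fun _ _ => le_max_left _ _)]
      refine Finset.sum_congr rfl fun y _ => ?_
      rw [ofReal_max0]
      rfl
    rw [h2]
    have h3 : (3 : ℝ≥0∞) ^ l = ENNReal.ofReal (3 ^ l) := by
      rw [ENNReal.ofReal_pow (by norm_num)]
      norm_num
    rw [h3, ← ENNReal.ofReal_div_of_pos (by positivity)]
    apply ENNReal.ofReal_le_ofReal
    have h4 : (2 : ℝ) ^ Mz n l ≤ 2 ^ n * 3 ^ l := by exact_mod_cast (hF1 n l).1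
    have h5 : ((n : ℝ) + 1) ^ 4 ≤ ((m : ℝ) + 1) ^ 24 := by
      have h6 : n + 1 ≤ (m + 1) ^ 6 := lt_mn_succ_pow n
      have h7 : ((n : ℝ) + 1) ≤ ((m : ℝ) + 1) ^ 6 := by exact_mod_cast h6
      calc ((n : ℝ) + 1) ^ 4 ≤ (((m : ℝ) + 1) ^ 6) ^ 4 := pow_le_pow_left₀ hnR.le h7 4
        _ = ((m : ℝ) + 1) ^ 24 := by rw [← pow_mul]
    rw [div_le_iff₀ (by positivity)]
    calc _ ≤ C1 / ((m : ℝ) + 1) ^ 24 * 2 ^ Mz n l := h1
      _ ≤ C1 / ((n : ℝ) + 1) ^ 4 * (2 ^ n * 3 ^ l) := by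
          apply mul_le_mul _ h4 (by positivity) (by positivity)
          exact div_le_div_of_nonneg_left hC0 (by positivity) h5
      _ = C1 * 2 ^ n / ((n : ℝ) + 1) ^ 4 * 3 ^ l := by ring
  have hcard : (Ty n).card ≤ 10 * n + 1 := by
    refine (Finset.card_filter_le _ _).trans ?_
    rw [Finset.card_range]
  have hfun : (fun x : ℤ_[3] => (∑ l ∈ Ty n, ENNReal.ofReal
        (|(cnt (Mz n l) {l} l (PadicInt.toZModPow l x) : ℝ) - en n l * Wp m x|
          - ε * (en n l * Wp m x))) / ENNReal.ofReal S)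
      = fun x => (∑ l ∈ Ty n, g l (PadicInt.toZModPow l x)) * (ENNReal.ofReal S)⁻¹ := by
    funext x
    rw [div_eq_mul_inv]
    congr 1
    refine Finset.sum_congr rfl fun l hl => ?_
    simp only [g, pj_toZModPow m l (hml l hl), Wp]
  rw [hfun, lintegral_mul_const _ (Finset.measurable_fun_sum _ fun l _ => (hMEA.2 l (g l)).1),
    lintegral_finsetSum _ (fun l _ => (hMEA.2 l (g l)).1)]
  have hsum : ∑ l ∈ Ty n, ∫⁻ x, g l (PadicInt.toZModPow l x) ∂μ3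
      ≤ ENNReal.ofReal ((10 * n + 1) * (C1 * 2 ^ n / ((n : ℝ) + 1) ^ 4)) := by
    calc ∑ l ∈ Ty n, ∫⁻ x, g l (PadicInt.toZModPow l x) ∂μ3
        ≤ ∑ l ∈ Ty n, ENNReal.ofReal (C1 * 2 ^ n / ((n : ℝ) + 1) ^ 4) := Finset.sum_le_sum hint
      _ = ((Ty n).card : ℝ≥0∞) * ENNReal.ofReal (C1 * 2 ^ n / ((n : ℝ) + 1) ^ 4) := by
          rw [Finset.sum_const, nsmul_eq_mul]
      _ ≤ ((10 * n + 1 : ℕ) : ℝ≥0∞) * ENNReal.ofReal (C1 * 2 ^ n / ((n : ℝ) + 1) ^ 4) := by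
          gcongr
      _ = ENNReal.ofReal ((10 * n + 1) * (C1 * 2 ^ n / ((n : ℝ) + 1) ^ 4)) := by
          rw [ENNReal.ofReal_mul (by positivity)]
          congr 1
          rw [← ENNReal.ofReal_natCast]
          congr 1
          push_cast
          ring
  calc (∑ l ∈ Ty n, ∫⁻ x, g l (PadicInt.toZModPow l x) ∂μ3) * (ENNReal.ofReal S)⁻¹
      ≤ ENNReal.ofReal ((10 * n + 1) * (C1 * 2 ^ n / ((n : ℝ) + 1) ^ 4)) *
          (ENNReal.ofReal (2 ^ n / (14 * ((n : ℝ) + 1))))⁻¹ := by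
        gcongr
    _ = ENNReal.ofReal ((10 * n + 1) * (C1 * 2 ^ n / ((n : ℝ) + 1) ^ 4) /
          (2 ^ n / (14 * ((n : ℝ) + 1)))) := by
        rw [← div_eq_mul_inv, ENNReal.ofReal_div_of_pos hSpos]
    _ ≤ ENNReal.ofReal (140 * C1 / ((n : ℝ) + 1) ^ 2) := by
        apply ENNReal.ofReal_le_ofReal
        have h1 : (10 * (n : ℝ) + 1) * (C1 * 2 ^ n / ((n : ℝ) + 1) ^ 4) /
            (2 ^ n / (14 * ((n : ℝ) + 1))) = (10 * (n : ℝ) + 1) * (14 * C1) / ((n : ℝ) + 1) ^ 3 := by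
          field_simp
        rw [h1]
        have h2 : 140 * C1 / ((n : ℝ) + 1) ^ 2
            = (10 * ((n : ℝ) + 1)) * (14 * C1) / ((n : ℝ) + 1) ^ 3 := by
          field_simp
          ring
        rw [h2]
        gcongr
        linarith

end Pool.Agent.WIR.H88
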