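import Pool.Agent.WIR.StmtsE

/-!
# Squad WIR, row WLM: the limit density
-/

set_option autoImplicit false

namespace Pool.Agent.WIR.H88W

open scoped BigOperators ENNReal
open MeasureTheory Filter Topology

theorem pj_toZModPow (m l : ℕ) (h : m ≤ l) (x : ℤ_[3]) :
    pj m l (PadicInt.toZModPow l x) = PadicInt.toZModPow m x := by
  rw [pj, ZMod.natCast_val, PadicInt.cast_toZModPow m l h x]

theorem lint_level (hMEA : MeaStmt) (N : ℕ) (h : ZMod (3 ^ N) → ℝ) (h0 : ∀ y, 0 ≤ h y) :
    ∫⁻ x, ENNReal.ofReal (h (PadicInt.toZModPow N x)) ∂μ3 = ENNReal.ofReal ((∑ y, h y) / 3 ^ N) := by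
  rw [(hMEA.2 N (fun y => ENNReal.ofReal (h y))).2, ← ENNReal.ofReal_sum_of_nonneg (fun y _ => h0 y)]
  have h3 : (3 : ℝ≥0∞) ^ N = ENNReal.ofReal (3 ^ N) := by
    rw [ENNReal.ofReal_pow (by norm_num)]
    norm_num
  rw [h3, ← ENNReal.ofReal_div_of_pos (by positivity)]

theorem wlm (hMEA : MeaStmt) (hWCF : WcfStmt) (hWMS : WmsStmt) : WlmStmt := by
  obtain ⟨C, hC, hW⟩ := hWCF 2
  have : IsProbabilityMeasure μ3 := hMEA.1
  have hW0 : ∀ N x, 0 ≤ Wp N x := fun N x => (hWMS N).1 _
  have hmE : ∀ N, Measurable (fun x : ℤ_[3] => ENNReal.ofReal (Wp N x)) := fun N =>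
    (hMEA.2 N (fun y => ENNReal.ofReal (W N y))).1
  have hmR : ∀ N, Measurable (Wp N) := by
    intro N
    have h1 : Wp N = fun x => (ENNReal.ofReal (Wp N x)).toReal := by
      funext x
      rw [ENNReal.toReal_ofReal (hW0 N x)]
    rw [h1]
    exact (hmE N).ennreal_toReal
  have hmD : ∀ N, Measurable (fun x : ℤ_[3] => ENNReal.ofReal (|Wp (N + 1) x - Wp N x|)) := by
    intro N
    exact ((hmR (N + 1)).sub (hmR N)).abs.ennreal_ofReal
  have hint : ∀ N, ∫⁻ x, ENNReal.ofReal (|Wp (N + 1) x - Wp N x|) ∂μ3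
      ≤ ENNReal.ofReal (C / ((N : ℝ) + 1) ^ 2) := by
    intro N
    have h1 : (fun x : ℤ_[3] => ENNReal.ofReal (|Wp (N + 1) x - Wp N x|)) = fun x =>
        ENNReal.ofReal ((fun y => |W (N + 1) y - W N (pj N (N + 1) y)|)
          (PadicInt.toZModPow (N + 1) x)) := by
      funext x
      simp only [Wp, pj_toZModPow N (N + 1) (Nat.le_succ N)]
    rw [h1, lint_level hMEA (N + 1) (fun y => |W (N + 1) y - W N (pj N (N + 1) y)|)
      (fun y => abs_nonneg _)]
    apply ENNReal.ofReal_le_ofReal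
    rw [div_le_iff₀ (by positivity)]
    exact hW N
  have hsumC : Summable (fun N : ℕ => C / ((N : ℝ) + 1) ^ 2) := by
    have h1 : Summable (fun N : ℕ => 1 / ((N : ℝ)) ^ 2) :=
      Real.summable_one_div_nat_pow.mpr (by norm_num)
    have h2 := ((summable_nat_add_iff 1).mpr h1).mul_left C
    refine h2.congr fun N => ?_
    push_cast
    ring
  have hfin : ∫⁻ x, ∑' N, ENNReal.ofReal (|Wp (N + 1) x - Wp N x|) ∂μ3 ≠ ∞ := by
    rw [lintegral_tsum fun N => (hmD N).aemeasurable]
    refine ne_top_of_le_ne_top ?_ (ENNReal.tsum_le_tsum hint)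
    rw [← ENNReal.ofReal_tsum_of_nonneg (fun N => by positivity) hsumC]
    exact ENNReal.ofReal_ne_top
  have hmS : Measurable (fun x : ℤ_[3] => ∑' N, ENNReal.ofReal (|Wp (N + 1) x - Wp N x|)) :=
    Measurable.ennreal_tsum hmD
  have hae : ∀ᵐ x ∂μ3, ∃ l : ℝ, Tendsto (fun n => Wp n x) atTop (𝓝 l) := by
    filter_upwards [ae_lt_top hmS hfin] with x hx
    have h1 := ENNReal.summable_toReal hx.ne
    have h2 : Summable (fun N => |Wp (N + 1) x - Wp N x|) := by
      refine h1.congr fun N => ?_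
      rw [ENNReal.toReal_ofReal (abs_nonneg _)]
    have h3 : CauchySeq (fun n => Wp n x) := by
      apply cauchySeq_of_summable_dist
      refine h2.congr fun N => ?_
      rw [Real.dist_eq, abs_sub_comm]
    exact cauchySeq_tendsto_of_complete h3
  obtain ⟨f, hf, hlim⟩ := measurable_limit_of_tendsto_metrizable_ae
    (fun n => (hmR n).aemeasurable) hae
  have hlim2 : ∀ᵐ x ∂μ3, Tendsto (fun n => Wp n x) atTop (𝓝 (max (f x) 0)) := by
    filter_upwards [hlim] with x hx
    have h1 : 0 ≤ f x := ge_of_tendsto' hx fun n => hW0 n x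
    rw [max_eq_left h1]
    exact hx
  refine ⟨fun x => max (f x) 0, hf.max measurable_const, fun x => le_max_right _ _, hlim2, ?_⟩
  -- the integral
  have hI : ∀ N, ∫⁻ x, ENNReal.ofReal (Wp N x) ∂μ3 = ENNReal.ofReal ((∑ y, W N y) / 3 ^ N) :=
    fun N => lint_level hMEA N (W N) (hWMS N).1
  have hD := tendsto_lintegral_of_dominated_convergence (μ := μ3)
    (F := fun n x => ENNReal.ofReal (Wp n x)) (f := fun x => ENNReal.ofReal (max (f x) 0))
    (fun x => ENNReal.ofReal (Wp 0 x) + ∑' N, ENNReal.ofReal (|Wp (N + 1) x - Wp N x|))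
    hmE ?_ ?_ ?_
  · have h1 : Tendsto (fun N => ENNReal.ofReal ((∑ y, W N y) / 3 ^ N)) atTop
        (𝓝 (ENNReal.ofReal 1)) := by
      apply ENNReal.tendsto_ofReal
      have hexp : Tendsto (fun N : ℕ => 1 - Real.exp (-((N : ℝ) / 6))) atTop (𝓝 (1 - 0)) := by
        apply Tendsto.sub tendsto_const_nhds
        apply Real.tendsto_exp_neg_atTop_nhds_zero.comp
        exact tendsto_natCast_atTop_atTop.atTop_div_const (by norm_num)
      rw [sub_zero] at hexp
      refine tendsto_of_tendsto_of_tendsto_of_le_of_le hexp tendsto_const_nhds ?_ ?_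
      · intro N
        change 1 - Real.exp (-((N : ℝ) / 6)) ≤ (∑ y, W N y) / 3 ^ N
        rw [le_div_iff₀ (by positivity)]
        exact (hWMS N).2.2
      · intro N
        change (∑ y, W N y) / 3 ^ N ≤ 1
        rw [div_le_one (by positivity)]
        exact (hWMS N).2.1
    rw [ENNReal.ofReal_one] at h1
    simp only [hI] at hD
    exact tendsto_nhds_unique hD h1
  · intro n
    refine Eventually.of_forall fun x => ?_
    change ENNReal.ofReal (Wp n x) ≤ _
    have h1 : ∀ n, ENNReal.ofReal (Wp n x) ≤ ENNReal.ofReal (Wp 0 x)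
        + ∑ N ∈ Finset.range n, ENNReal.ofReal (|Wp (N + 1) x - Wp N x|) := by
      intro n
      induction n with
      | zero => simp
      | succ n ih =>
        rw [Finset.sum_range_succ, ← add_assoc]
        calc ENNReal.ofReal (Wp (n + 1) x)
            ≤ ENNReal.ofReal (Wp n x + |Wp (n + 1) x - Wp n x|) := by
              apply ENNReal.ofReal_le_ofReal
              have := le_abs_self (Wp (n + 1) x - Wp n x)
              linarith
          _ = ENNReal.ofReal (Wp n x) + ENNReal.ofReal (|Wp (n + 1) x - Wp n x|) :=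
              ENNReal.ofReal_add (hW0 n x) (abs_nonneg _)
          _ ≤ _ := by gcongr
    exact (h1 n).trans (add_le_add le_rfl (ENNReal.sum_le_tsum _))
  · rw [lintegral_add_left (hmE 0), hI 0]
    exact ENNReal.add_ne_top.mpr ⟨ENNReal.ofReal_ne_top, hfin⟩
  · filter_upwards [hlim2] with x hx
    exact ENNReal.tendsto_ofReal hx

end Pool.Agent.WIR.H88W
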